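import Pool.Agent.Q199.LL.Main

/-!
# `L₁ + L_∞` is not isomorphic to a dual space

`L1Linf` is the space `L₁ + L_∞` of the (classes of) real measurable functions `x = u + v` on
`(0, ∞)`, `u ∈ L₁`, `v ∈ L_∞`, with the norm `inf (‖u‖₁ + ‖v‖_∞)` over all such decompositions
(`Pool.Agent.Q199.LL.Space`).

Idea of the proof. Let `Ψ` be an isomorphism of `Y*` onto `L₁ + L_∞`. Integration over disjoint
subsets of `(0, 1)` and a vector valued form of Goldstine's theorem give, level by level, a dyadic
tree of sets `A_s ⊆ (0, 1)` and vectors `x_s ∈ Y` with `∑_{|s| = n} |ψ (x_s)| ≤ C ‖ψ‖` on `Y*`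
such that the functionals of the normalised characteristic functions of all subsets of the sets
below `s` are at least `1/2` at `x_s`. Weak* cluster points along the branches `t` are elements
`y_t` of `L₁ + L_∞` with `y_t (x_{t|n}) ≥ 1/2` for all `n`. There are uncountably many branches and
`L₁` is separable, so the `L₁` parts of infinitely many `y_t` are close to each other, and the
`L_∞` parts of `N` of them contradict the inequality `∑ φ_i (v_i) ≤ 2 C √N max ‖v_i‖`, valid for
functionals on `L_∞` with `∑ |φ_i| ≤ C ‖·‖` (Riesz products).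
-/

set_option autoImplicit false

namespace Pool.Agent.Results.MP_ec556a_an.NotADual

open Pool.Agent.Q199.LL

universe w

/-- The space `L₁ + L_∞` on `(0, ∞)` is not isomorphic to the dual of any normed space. -/
theorem result (Y : Type w) [NormedAddCommGroup Y] [NormedSpace ℝ Y] :
    IsEmpty (StrongDual ℝ Y ≃L[ℝ] L1Linf) :=
  ⟨fun Ψ => main Y Ψ⟩

end Pool.Agent.Results.MP_ec556a_an.NotADual
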